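import Pool.Agent.W875.GE.Spec

/-! Project GE, part Co: the derivations dual to `θ(x₁), …, θ(xₙ)`. -/

set_option autoImplicit false

universe u

open TensorProduct MulOpposite W875.GE

namespace Pool.Agent.W125.GE.Co

section gen

variable {K : Type u} [Field K] {A : Type u} [Ring A] [Algebra K A]

/-- `A ⊗ Aᵒᵖ → A ⊗ A` -/
noncomputable def tau : A ⊗[K] Aᵐᵒᵖ →ₗ[K] A ⊗[K] A :=
  LinearMap.lTensor A (opLinearEquiv K (M := A)).symm.toLinearMap

theorem tau_tmul (a b : A) : tau (a ⊗ₜ[K] op b) = a ⊗ₜ[K] b := by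
  simp [tau]

/-- left outer action -/
noncomputable def LA (a : A) : A ⊗[K] A →ₗ[K] A ⊗[K] A := (LinearMap.mulLeft K a).rTensor A

/-- right outer action -/
noncomputable def RA (b : A) : A ⊗[K] A →ₗ[K] A ⊗[K] A := (LinearMap.mulRight K b).lTensor A

theorem LA_tmul (a p q : A) : LA a (p ⊗ₜ[K] q) = (a * p) ⊗ₜ[K] q := by simp [LA]
theorem RA_tmul (b p q : A) : RA b (p ⊗ₜ[K] q) = p ⊗ₜ[K] (q * b) := by simp [RA]

theorem tau_left (a : A) (z : A ⊗[K] Aᵐᵒᵖ) :
    tau ((a ⊗ₜ[K] (1 : Aᵐᵒᵖ)) * z) = LA a (tau z) := by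
  induction z using TensorProduct.induction_on with
  | zero => simp
  | tmul p q =>
    obtain ⟨q, rfl⟩ := op_surjective q
    rw [Algebra.TensorProduct.tmul_mul_tmul, one_mul, tau_tmul, tau_tmul, LA_tmul]
  | add x y hx hy => rw [mul_add, map_add, map_add, map_add, hx, hy]

theorem tau_right (b : A) (z : A ⊗[K] Aᵐᵒᵖ) :
    tau (((1 : A) ⊗ₜ[K] op b) * z) = RA b (tau z) := by
  induction z using TensorProduct.induction_on with
  | zero => simp
  | tmul p q =>
    obtain ⟨q, rfl⟩ := op_surjective q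
    rw [Algebra.TensorProduct.tmul_mul_tmul, one_mul, ← op_mul, tau_tmul, tau_tmul, RA_tmul]
  | add x y hx hy => rw [mul_add, map_add, map_add, map_add, hx, hy]

/-- `q ↦ q · z` -/
noncomputable def cz : A ⊗[K] A →ₗ[K] A →ₗ[K] A ⊗[K] A :=
  ((LinearMap.rTensorHom A).comp (LinearMap.mul K A)).flip

theorem cz_apply (z : A ⊗[K] A) (q : A) : cz z q = LA q z := rfl

/-- outer actions on the triple tensor product -/
noncomputable def L3 (a : A) : A ⊗[K] (A ⊗[K] A) →ₗ[K] A ⊗[K] (A ⊗[K] A) :=
  (LinearMap.mulLeft K a).rTensor (A ⊗[K] A)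

noncomputable def R3 (b : A) : A ⊗[K] (A ⊗[K] A) →ₗ[K] A ⊗[K] (A ⊗[K] A) :=
  (RA b).lTensor A

theorem key1 (u v : A) (w : A ⊗[K] A) :
    TensorProduct.assoc K A A A (RA u w ⊗ₜ[K] v) = (cz (u ⊗ₜ[K] v)).lTensor A w := by
  induction w using TensorProduct.induction_on with
  | zero => simp
  | tmul p q =>
    rw [RA_tmul, TensorProduct.assoc_tmul, LinearMap.lTensor_tmul, cz_apply, LA_tmul]
  | add x y hx hy => rw [map_add, add_tmul, map_add, map_add, hx, hy]

theorem key2 (a v : A) (w : A ⊗[K] A) :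
    TensorProduct.assoc K A A A (LA a w ⊗ₜ[K] v) =
      L3 a (TensorProduct.assoc K A A A (w ⊗ₜ[K] v)) := by
  induction w using TensorProduct.induction_on with
  | zero => simp
  | tmul p q => rw [LA_tmul, TensorProduct.assoc_tmul, TensorProduct.assoc_tmul]; simp [L3]
  | add x y hx hy => rw [map_add, add_tmul, map_add, add_tmul, map_add, map_add, hx, hy]

theorem key3 (b v : A) (w : A ⊗[K] A) :
    TensorProduct.assoc K A A A (w ⊗ₜ[K] (v * b)) =
      R3 b (TensorProduct.assoc K A A A (w ⊗ₜ[K] v)) := by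
  induction w using TensorProduct.induction_on with
  | zero => simp
  | tmul p q =>
    rw [TensorProduct.assoc_tmul, TensorProduct.assoc_tmul, R3, LinearMap.lTensor_tmul, RA_tmul]
  | add x y hx hy => rw [add_tmul, map_add, add_tmul, map_add, map_add, hx, hy]

variable (D : A →ₗ[K] A ⊗[K] A) (hD : ∀ a b, D (a * b) = RA b (D a) + LA a (D b))

include hD

theorem A1 (a : A) (z : A ⊗[K] A) : TensorProduct.assoc K A A A (D.rTensor A (LA a z)) =
    L3 a (TensorProduct.assoc K A A A (D.rTensor A z)) + (cz z).lTensor A (D a) := by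
  induction z using TensorProduct.induction_on with
  | zero => simp
  | tmul p q =>
    rw [LA_tmul, LinearMap.rTensor_tmul, hD, add_tmul, map_add, key1, key2,
      LinearMap.rTensor_tmul, add_comm]
  | add x y hx hy =>
    rw [map_add, map_add, map_add, hx, hy, map_add, map_add, map_add, map_add,
      LinearMap.lTensor_add, LinearMap.add_apply]
    abel

omit hD in
theorem A2 (b : A) (z : A ⊗[K] A) : TensorProduct.assoc K A A A (D.rTensor A (RA b z)) =
    R3 b (TensorProduct.assoc K A A A (D.rTensor A z)) := by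
  induction z using TensorProduct.induction_on with
  | zero => simp
  | tmul p q => rw [RA_tmul, LinearMap.rTensor_tmul, key3, LinearMap.rTensor_tmul]
  | add x y hx hy => rw [map_add, map_add, map_add, hx, hy, map_add, map_add, map_add]

theorem B1 (b : A) (w : A ⊗[K] A) : D.lTensor A (RA b w) =
    R3 b (D.lTensor A w) + (cz (D b)).lTensor A w := by
  induction w using TensorProduct.induction_on with
  | zero => simp
  | tmul p q =>
    rw [RA_tmul, LinearMap.lTensor_tmul, hD, tmul_add, LinearMap.lTensor_tmul, R3,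
      LinearMap.lTensor_tmul, LinearMap.lTensor_tmul, cz_apply]
  | add x y hx hy =>
    rw [map_add, map_add, hx, hy, map_add, map_add, map_add]
    abel

omit hD in
theorem B2 (a : A) (w : A ⊗[K] A) : D.lTensor A (LA a w) = L3 a (D.lTensor A w) := by
  induction w using TensorProduct.induction_on with
  | zero => simp
  | tmul p q => rw [LA_tmul, LinearMap.lTensor_tmul, LinearMap.lTensor_tmul]; simp [L3]
  | add x y hx hy => rw [map_add, map_add, hx, hy, map_add, map_add]

end gen

section acts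

variable {K : Type u} [Field K] {A : Type u} [Ring A] [Algebra K A]

theorem act3_comm (a : A) (b : Aᵐᵒᵖ) :
    Commute (((Module.End.rTensorAlgHom K A (A ⊗[K] A)).comp (Algebra.lmul K A)) a)
      (((Module.End.lTensorAlgHom K (A ⊗[K] A) A).comp
      ((Module.End.lTensorAlgHom K A A).comp (Algebra.lsmul K K A))) b) :=
  (LinearMap.rTensor_comp_lTensor (M := A) (Algebra.lmul K A a)
      ((Algebra.lsmul K K A b).lTensor A)).trans
        (LinearMap.lTensor_comp_rTensor (M := A) (Algebra.lmul K A a)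
      ((Algebra.lsmul K K A b).lTensor A)).symm

/-- action of `A ⊗ Aᵒᵖ` on the triple tensor product -/
noncomputable def act3 : A ⊗[K] Aᵐᵒᵖ →ₐ[K] Module.End K (A ⊗[K] (A ⊗[K] A)) :=
  Algebra.TensorProduct.lift
    ((Module.End.rTensorAlgHom K A (A ⊗[K] A)).comp (Algebra.lmul K A))
    ((Module.End.lTensorAlgHom K (A ⊗[K] A) A).comp
      ((Module.End.lTensorAlgHom K A A).comp (Algebra.lsmul K K A)))
    act3_comm

theorem act3_left (a : A) (z : A ⊗[K] (A ⊗[K] A)) :
    act3 (a ⊗ₜ[K] (1 : Aᵐᵒᵖ)) z = L3 a z := by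
  rw [act3, Algebra.TensorProduct.lift_tmul, map_one, mul_one]
  rfl

theorem act3_right (b : A) (z : A ⊗[K] (A ⊗[K] A)) :
    act3 ((1 : A) ⊗ₜ[K] op b) z = R3 b z := by
  rw [act3, Algebra.TensorProduct.lift_tmul, map_one, one_mul]
  rfl

/-- action by `m ↦ ε(b) a m` -/
noncomputable def actL (e : A →ₐ[K] K) : A ⊗[K] Aᵐᵒᵖ →ₐ[K] Module.End K A :=
  Algebra.TensorProduct.lift (Algebra.lmul K A)
    ((Algebra.ofId K (Module.End K A)).comp (e.fromOpposite fun x y => Commute.all _ _))
    (fun a b => by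
      change Commute _ (algebraMap K (Module.End K A) (e (unop b)))
      exact Algebra.commute_algebraMap_right _ _)

theorem actL_left (e : A →ₐ[K] K) (a m : A) : actL e (a ⊗ₜ[K] (1 : Aᵐᵒᵖ)) m = a * m := by
  rw [actL, Algebra.TensorProduct.lift_tmul, map_one, mul_one]
  rfl

theorem actL_right (e : A →ₐ[K] K) (b m : A) :
    actL e ((1 : A) ⊗ₜ[K] op b) m = e b • m := by
  rw [actL, Algebra.TensorProduct.lift_tmul, map_one, one_mul]
  rfl

/-- action by `m ↦ ε(a) m b` -/
noncomputable def actR (e : A →ₐ[K] K) : A ⊗[K] Aᵐᵒᵖ →ₐ[K] Module.End K A :=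
  Algebra.TensorProduct.lift ((Algebra.ofId K (Module.End K A)).comp e) (Algebra.lsmul K K A)
    (fun a b => by
      change Commute (algebraMap K (Module.End K A) (e a)) _
      exact Algebra.commute_algebraMap_left _ _)

theorem actR_left (e : A →ₐ[K] K) (a m : A) : actR e (a ⊗ₜ[K] (1 : Aᵐᵒᵖ)) m = e a • m := by
  rw [actR, Algebra.TensorProduct.lift_tmul, map_one, mul_one]
  rfl

theorem actR_right (e : A →ₐ[K] K) (b m : A) :
    actR e ((1 : A) ⊗ₜ[K] op b) m = m * b := by
  rw [actR, Algebra.TensorProduct.lift_tmul, map_one, one_mul]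
  rfl

/-- `p ⊗ q ↦ ε(q) p` -/
noncomputable def rho (e : A →ₐ[K] K) : A ⊗[K] A →ₗ[K] A :=
  (TensorProduct.rid K A).toLinearMap ∘ₗ e.toLinearMap.lTensor A

theorem rho_RA (e : A →ₐ[K] K) (b : A) (z : A ⊗[K] A) : rho e (RA b z) = e b • rho e z := by
  induction z using TensorProduct.induction_on with
  | zero => simp
  | tmul p q => rw [RA_tmul]; simp [rho, smul_smul, mul_comm]
  | add x y hx hy => rw [map_add, map_add, map_add, hx, hy, smul_add]

theorem rho_LA (e : A →ₐ[K] K) (a : A) (z : A ⊗[K] A) : rho e (LA a z) = a * rho e z := by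
  induction z using TensorProduct.induction_on with
  | zero => simp
  | tmul p q => rw [LA_tmul]; simp [rho]
  | add x y hx hy => rw [map_add, map_add, map_add, hx, hy, mul_add]

/-- `p ⊗ q ↦ ε(p) q` -/
noncomputable def lam (e : A →ₐ[K] K) : A ⊗[K] A →ₗ[K] A :=
  (TensorProduct.lid K A).toLinearMap ∘ₗ e.toLinearMap.rTensor A

theorem lam_RA (e : A →ₐ[K] K) (b : A) (z : A ⊗[K] A) : lam e (RA b z) = lam e z * b := by
  induction z using TensorProduct.induction_on with
  | zero => simp
  | tmul p q => rw [RA_tmul]; simp [lam]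
  | add x y hx hy => rw [map_add, map_add, map_add, hx, hy, add_mul]

theorem lam_LA (e : A →ₐ[K] K) (a : A) (z : A ⊗[K] A) : lam e (LA a z) = e a • lam e z := by
  induction z using TensorProduct.induction_on with
  | zero => simp
  | tmul p q => rw [LA_tmul]; simp [lam, smul_smul]
  | add x y hx hy => rw [map_add, map_add, map_add, hx, hy, smul_add]

end acts

section free

variable {K : Type u} [Field K] {n : ℕ} {d : Fin n → FA K n →ₗ[K] RR K n}

theorem d_one (hd : IsD d) (i : Fin n) : d i 1 = 0 := by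
  have h := hd.mul i 1 1
  rw [mul_one, MulOpposite.op_one, ← Algebra.TensorProduct.one_def, one_mul] at h
  exact left_eq_add.1 h

/-- a derivation into a bimodule is determined by its values on the variables -/
theorem rep {M : Type*} [AddCommGroup M] [Module K M] (act : RR K n →ₐ[K] Module.End K M)
    (hd : IsD d) (F : FA K n →ₗ[K] M)
    (hF : ∀ a b, F (a * b) = act ((1 : FA K n) ⊗ₜ[K] op b) (F a)
      + act (a ⊗ₜ[K] (1 : (FA K n)ᵐᵒᵖ)) (F b)) (a : FA K n) :
    F a = ∑ k, act (d k a) (F (FreeAlgebra.ι K k)) := by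
  have h1 : F 1 = 0 := by
    have h := hF 1 1
    rw [mul_one, MulOpposite.op_one, ← Algebra.TensorProduct.one_def, map_one act,
      Module.End.one_apply] at h
    exact left_eq_add.1 h
  induction a using FreeAlgebra.induction with
  | grade0 r =>
    rw [Algebra.algebraMap_eq_smul_one, map_smul, h1, smul_zero]
    symm
    refine Finset.sum_eq_zero fun k _ => ?_
    rw [map_smul, d_one hd, smul_zero, map_zero, LinearMap.zero_apply]
  | grade1 j =>
    rw [Finset.sum_eq_single j]
    · rw [hd.ι, if_pos rfl, map_one, Module.End.one_apply]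
    · intro k _ hk
      rw [hd.ι, if_neg hk, map_zero, LinearMap.zero_apply]
    · intro h; exact absurd (Finset.mem_univ j) h
  | mul a b ha hb =>
    rw [hF, ha, hb, map_sum, map_sum, ← Finset.sum_add_distrib]
    refine Finset.sum_congr rfl fun k _ => ?_
    rw [hd.mul, map_add, LinearMap.add_apply, map_mul, map_mul, Module.End.mul_apply,
      Module.End.mul_apply]
  | add a b ha hb =>
    rw [map_add, ha, hb, ← Finset.sum_add_distrib]
    refine Finset.sum_congr rfl fun k _ => ?_
    rw [map_add, map_add, LinearMap.add_apply]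

theorem uniq {M : Type*} [AddCommGroup M] [Module K M] (act : RR K n →ₐ[K] Module.End K M)
    (hd : IsD d) (F : FA K n →ₗ[K] M)
    (hF : ∀ a b, F (a * b) = act ((1 : FA K n) ⊗ₜ[K] op b) (F a)
      + act (a ⊗ₜ[K] (1 : (FA K n)ᵐᵒᵖ)) (F b)) (θ : FA K n →ₐ[K] FA K n)
    (G : Matrix (Fin n) (Fin n) (RR K n)) (hG : G * Jac d θ = 1)
    (h0 : ∀ i, F (θ (FreeAlgebra.ι K i)) = 0) (a : FA K n) : F a = 0 := by
  have hx : ∀ k, F (FreeAlgebra.ι K k) = 0 := by
    intro k
    have h1 : ∑ k', act ((G * Jac d θ) k k') (F (FreeAlgebra.ι K k'))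
        = F (FreeAlgebra.ι K k) := by
      rw [hG, Finset.sum_eq_single k]
      · rw [Matrix.one_apply_eq, map_one, Module.End.one_apply]
      · intro k' _ hk
        rw [Matrix.one_apply_ne (Ne.symm hk), map_zero, LinearMap.zero_apply]
      · intro h; exact absurd (Finset.mem_univ k) h
    rw [← h1]
    have h2 : ∀ k', act ((G * Jac d θ) k k') (F (FreeAlgebra.ι K k'))
        = ∑ i, act (G k i) (act (d k' (θ (FreeAlgebra.ι K i))) (F (FreeAlgebra.ι K k'))) := by
      intro k'
      rw [Matrix.mul_apply, map_sum, LinearMap.sum_apply]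
      refine Finset.sum_congr rfl fun i _ => ?_
      rw [map_mul, Module.End.mul_apply]
      rfl
    rw [Finset.sum_congr rfl fun k' _ => h2 k', Finset.sum_comm]
    refine Finset.sum_eq_zero fun i _ => ?_
    rw [← map_sum, ← rep act hd F hF, h0, map_zero]
  rw [rep act hd F hF]
  refine Finset.sum_eq_zero fun k _ => ?_
  rw [hx, map_zero]

/-- the dual derivations -/
noncomputable def DD (d : Fin n → FA K n →ₗ[K] RR K n) (G : Matrix (Fin n) (Fin n) (RR K n))
    (j : Fin n) : FA K n →ₗ[K] FA K n ⊗[K] FA K n :=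
  tau ∘ₗ ∑ k, LinearMap.mulRight K (G k j) ∘ₗ d k

theorem DD_apply (G : Matrix (Fin n) (Fin n) (RR K n)) (j : Fin n) (a : FA K n) :
    DD d G j a = tau (∑ k, d k a * G k j) := by
  simp [DD, LinearMap.sum_apply]

theorem DD_mul (hd : IsD d) (G : Matrix (Fin n) (Fin n) (RR K n)) (j : Fin n) (a b : FA K n) :
    DD d G j (a * b) = RA b (DD d G j a) + LA a (DD d G j b) := by
  rw [DD_apply, DD_apply, DD_apply, ← tau_left, ← tau_right, ← map_add, Finset.mul_sum,
    Finset.mul_sum, ← Finset.sum_add_distrib]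
  congr 1
  refine Finset.sum_congr rfl fun k _ => ?_
  rw [hd.mul, add_mul, mul_assoc, mul_assoc]

theorem DD_theta (θ : FA K n →ₐ[K] FA K n) (G : Matrix (Fin n) (Fin n) (RR K n))
    (hG : Jac d θ * G = 1) (i j : Fin n) :
    DD d G j (θ (FreeAlgebra.ι K i)) = if i = j then 1 ⊗ₜ[K] 1 else 0 := by
  have h : ∑ k, d k (θ (FreeAlgebra.ι K i)) * G k j = (Jac d θ * G) i j := by
    rw [Matrix.mul_apply]; rfl
  rw [DD_apply, h, hG, Matrix.one_apply]
  split_ifs
  · rw [Algebra.TensorProduct.one_def, ← MulOpposite.op_one, tau_tmul]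
  · rw [map_zero]

theorem DD_one (hd : IsD d) (G : Matrix (Fin n) (Fin n) (RR K n)) (j : Fin n) :
    DD d G j 1 = 0 := by
  rw [DD_apply]
  simp [d_one hd]

end free

theorem main : W875.GE.PartCo.{u} := by
  intro K _ n d hd θ hε hJ
  obtain ⟨u, hu⟩ := hJ
  set G : Matrix (Fin n) (Fin n) (RR K n) := (u⁻¹ : (Matrix (Fin n) (Fin n) (RR K n))ˣ).val with hGd
  have hG1 : G * Jac d θ = 1 := by rw [← hu, hGd]; exact u.inv_mul
  have hG2 : Jac d θ * G = 1 := by rw [← hu, hGd]; exact u.mul_inv
  refine ⟨DD d G, fun i k => ?_, fun a => ?_, fun a => ?_⟩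
  · rw [← sub_eq_zero]
    refine LinearMap.ext fun a => ?_
    refine uniq act3 hd _ (fun a b => ?_) θ G hG1 (fun j => ?_) a
    · rw [act3_left, act3_right]
      simp only [LinearMap.sub_apply, LinearMap.comp_apply, LinearEquiv.coe_coe]
      rw [DD_mul hd, DD_mul hd, map_add, map_add, map_add, A1 _ (DD_mul hd G k), A2, B2,
        B1 _ (DD_mul hd G i), map_sub, map_sub]
      abel
    · simp only [LinearMap.sub_apply, LinearMap.comp_apply, LinearEquiv.coe_coe]
      rw [DD_theta θ G hG2, DD_theta θ G hG2]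
      split_ifs <;> simp [DD_one hd]
  · set H : FA K n →ₗ[K] FA K n := LinearMap.id - (Algebra.linearMap K (FA K n)) ∘ₗ
      (eps K n).toLinearMap - ∑ j, LinearMap.mulRight K (θ (FreeAlgebra.ι K j)) ∘ₗ
        rho (eps K n) ∘ₗ DD d G j with hH
    have hHa : ∀ a, H a = a - algebraMap K (FA K n) (eps K n a) -
        ∑ j, rho (eps K n) (DD d G j a) * θ (FreeAlgebra.ι K j) := by
      intro a
      rw [hH]
      simp only [LinearMap.sub_apply, LinearMap.comp_apply, LinearMap.sum_apply,
        LinearMap.id_apply, LinearMap.mulRight_apply, Algebra.linearMap_apply,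
        AlgHom.toLinearMap_apply]
    have h0 := uniq (actL (eps K n)) hd H (fun a b => ?_) θ G hG1 (fun j => ?_) a
    · rw [hHa, sub_sub, sub_eq_zero] at h0
      exact h0
    · rw [actL_left, actL_right, hHa, hHa, hHa]
      have h1 : ∑ j, rho (eps K n) (DD d G j (a * b)) * θ (FreeAlgebra.ι K j)
          = eps K n b • (∑ j, rho (eps K n) (DD d G j a) * θ (FreeAlgebra.ι K j))
            + a * ∑ j, rho (eps K n) (DD d G j b) * θ (FreeAlgebra.ι K j) := by
        rw [Finset.smul_sum, Finset.mul_sum, ← Finset.sum_add_distrib]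
        refine Finset.sum_congr rfl fun j _ => ?_
        rw [DD_mul hd, map_add, rho_RA, rho_LA, add_mul, smul_mul_assoc, mul_assoc]
      rw [h1, map_mul, map_mul, smul_sub, smul_sub, mul_sub, mul_sub, ← Algebra.commutes,
        ← Algebra.smul_def, ← Algebra.commutes, ← Algebra.smul_def]
      abel
    · rw [hHa, hε, map_zero, sub_zero, Finset.sum_eq_single j, DD_theta θ G hG2, if_pos rfl]
      · simp [rho]
      · intro i _ hi
        rw [DD_theta θ G hG2, if_neg (Ne.symm hi), map_zero, zero_mul]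
      · intro h; exact absurd (Finset.mem_univ j) h
  · set H : FA K n →ₗ[K] FA K n := LinearMap.id - (Algebra.linearMap K (FA K n)) ∘ₗ
      (eps K n).toLinearMap - ∑ j, LinearMap.mulLeft K (θ (FreeAlgebra.ι K j)) ∘ₗ
        lam (eps K n) ∘ₗ DD d G j with hH
    have hHa : ∀ a, H a = a - algebraMap K (FA K n) (eps K n a) -
        ∑ j, θ (FreeAlgebra.ι K j) * lam (eps K n) (DD d G j a) := by
      intro a
      rw [hH]
      simp only [LinearMap.sub_apply, LinearMap.comp_apply, LinearMap.sum_apply,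
        LinearMap.id_apply, LinearMap.mulLeft_apply, Algebra.linearMap_apply,
        AlgHom.toLinearMap_apply]
    have h0 := uniq (actR (eps K n)) hd H (fun a b => ?_) θ G hG1 (fun j => ?_) a
    · rw [hHa, sub_sub, sub_eq_zero] at h0
      exact h0
    · rw [actR_left, actR_right, hHa, hHa, hHa]
      have h1 : ∑ j, θ (FreeAlgebra.ι K j) * lam (eps K n) (DD d G j (a * b))
          = (∑ j, θ (FreeAlgebra.ι K j) * lam (eps K n) (DD d G j a)) * b
            + eps K n a • ∑ j, θ (FreeAlgebra.ι K j) * lam (eps K n) (DD d G j b) := by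
        rw [Finset.smul_sum, Finset.sum_mul, ← Finset.sum_add_distrib]
        refine Finset.sum_congr rfl fun j _ => ?_
        rw [DD_mul hd, map_add, lam_RA, lam_LA, mul_add, mul_smul_comm, mul_assoc]
      rw [h1, map_mul, map_mul, smul_sub, smul_sub, sub_mul, sub_mul, ← Algebra.smul_def,
        ← Algebra.smul_def]
      abel
    · rw [hHa, hε, map_zero, sub_zero, Finset.sum_eq_single j, DD_theta θ G hG2, if_pos rfl]
      · simp [lam]
      · intro i _ hi
        rw [DD_theta θ G hG2, if_neg (Ne.symm hi), map_zero, mul_zero]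
      · intro h; exact absurd (Finset.mem_univ j) h

end Pool.Agent.W125.GE.Co
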